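import Pool.Agent.Lib.MP_e46711_an.DefsB

/-!
# B0a: `H1TBasic`

`H1T` is the closure of the `C1per` triples in `L^2 × L^2 × L^2`.
-/

open Set Filter Topology MeasureTheory
open scoped ContDiff ENNReal

namespace Pool.Agent.Lib.MP_e46711_an.H7

/-! ## `L^2` of a measure -/

section

variable {α : Type*} {m0 : MeasurableSpace α} {μ : Measure α}

theorem sq_norm_toLp {f : α → ℝ} (hf : MemLp f 2 μ) :
    ‖hf.toLp f‖ ^ 2 = ∫ x, f x ^ 2 ∂μ := by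
  rw [← real_inner_self_eq_norm_sq, MeasureTheory.L2.inner_def]
  refine integral_congr_ae ?_
  filter_upwards [hf.coeFn_toLp] with x hx
  rw [hx]
  simp only [RCLike.inner_apply, conj_trivial]
  ring

theorem sq_norm_toLp_sub {f g : α → ℝ} (hf : MemLp f 2 μ) (hg : MemLp g 2 μ) :
    ‖hf.toLp f - hg.toLp g‖ ^ 2 = ∫ x, (f x - g x) ^ 2 ∂μ := by
  rw [← MemLp.toLp_sub, sq_norm_toLp]
  rfl

theorem integrable_sq_sub {f g : α → ℝ} (hf : MemLp f 2 μ) (hg : MemLp g 2 μ) :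
    Integrable (fun x => (f x - g x) ^ 2) μ := (hf.sub hg).integrable_sq

/-- the square of the distance of two triples -/
theorem dist_triple {U V W U' V' W' : α → ℝ} (hU : MemLp U 2 μ) (hV : MemLp V 2 μ)
    (hW : MemLp W 2 μ) (hU' : MemLp U' 2 μ) (hV' : MemLp V' 2 μ) (hW' : MemLp W' 2 μ) :
    ∫ z, ((U z - U' z) ^ 2 + (V z - V' z) ^ 2 + (W z - W' z) ^ 2) ∂μ =
      ‖hU.toLp U - hU'.toLp U'‖ ^ 2 + ‖hV.toLp V - hV'.toLp V'‖ ^ 2
        + ‖hW.toLp W - hW'.toLp W'‖ ^ 2 := by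
  rw [sq_norm_toLp_sub, sq_norm_toLp_sub, sq_norm_toLp_sub, integral_add, integral_add]
  · exact integrable_sq_sub hU hU'
  · exact integrable_sq_sub hV hV'
  · exact (integrable_sq_sub hU hU').add (integrable_sq_sub hV hV')
  · exact integrable_sq_sub hW hW'

/-- the triple in `L^2 × L^2 × L^2` -/
noncomputable def trip {U V W : α → ℝ} (hU : MemLp U 2 μ) (hV : MemLp V 2 μ)
    (hW : MemLp W 2 μ) : Lp ℝ 2 μ × Lp ℝ 2 μ × Lp ℝ 2 μ := (hU.toLp U, hV.toLp V, hW.toLp W)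

theorem tendsto_trip_iff {U V W : α → ℝ} {Un Vn Wn : ℕ → α → ℝ} (hU : MemLp U 2 μ)
    (hV : MemLp V 2 μ) (hW : MemLp W 2 μ) (hUn : ∀ n, MemLp (Un n) 2 μ)
    (hVn : ∀ n, MemLp (Vn n) 2 μ) (hWn : ∀ n, MemLp (Wn n) 2 μ) :
    Tendsto (fun n => trip (hUn n) (hVn n) (hWn n)) atTop (𝓝 (trip hU hV hW)) ↔
    Tendsto (fun n => ∫ z, ((Un n z - U z) ^ 2 + (Vn n z - V z) ^ 2 + (Wn n z - W z) ^ 2) ∂μ)
      atTop (𝓝 0) := by
  have h1 : (fun n => ∫ z, ((Un n z - U z) ^ 2 + (Vn n z - V z) ^ 2 + (Wn n z - W z) ^ 2) ∂μ) =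
      fun n => ‖(hUn n).toLp (Un n) - hU.toLp U‖ ^ 2 + ‖(hVn n).toLp (Vn n) - hV.toLp V‖ ^ 2
        + ‖(hWn n).toLp (Wn n) - hW.toLp W‖ ^ 2 :=
    funext fun n => dist_triple (hUn n) (hVn n) (hWn n) hU hV hW
  rw [h1, trip]
  constructor
  · intro h
    have a1 := tendsto_iff_norm_sub_tendsto_zero.1 ((continuous_fst.tendsto _).comp h)
    have a2 := tendsto_iff_norm_sub_tendsto_zero.1
      (((continuous_fst.comp continuous_snd).tendsto _).comp h)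
    have a3 := tendsto_iff_norm_sub_tendsto_zero.1
      (((continuous_snd.comp continuous_snd).tendsto _).comp h)
    have := ((a1.pow 2).add (a2.pow 2)).add (a3.pow 2)
    simpa [trip, Function.comp_def] using this
  · intro h
    have key : ∀ f : ℕ → ℝ, (∀ n, 0 ≤ f n) → (∀ n, f n ^ 2 ≤
        ‖(hUn n).toLp (Un n) - hU.toLp U‖ ^ 2 + ‖(hVn n).toLp (Vn n) - hV.toLp V‖ ^ 2
        + ‖(hWn n).toLp (Wn n) - hW.toLp W‖ ^ 2) → Tendsto f atTop (𝓝 0) := by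
      intro f hf0 hf
      have h2 : Tendsto (fun n => f n ^ 2) atTop (𝓝 0) :=
        squeeze_zero (fun n => sq_nonneg _) hf h
      have h3 := h2.sqrt
      rw [Real.sqrt_zero] at h3
      refine h3.congr fun n => ?_
      rw [Real.sqrt_sq (hf0 n)]
    refine Tendsto.prodMk_nhds ?_ (Tendsto.prodMk_nhds ?_ ?_)
    · refine tendsto_iff_norm_sub_tendsto_zero.2 (key _ (fun _ => norm_nonneg _) fun n => ?_)
      have := sq_nonneg ‖(hVn n).toLp (Vn n) - hV.toLp V‖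
      have := sq_nonneg ‖(hWn n).toLp (Wn n) - hW.toLp W‖
      linarith
    · refine tendsto_iff_norm_sub_tendsto_zero.2 (key _ (fun _ => norm_nonneg _) fun n => ?_)
      have := sq_nonneg ‖(hUn n).toLp (Un n) - hU.toLp U‖
      have := sq_nonneg ‖(hWn n).toLp (Wn n) - hW.toLp W‖
      linarith
    · refine tendsto_iff_norm_sub_tendsto_zero.2 (key _ (fun _ => norm_nonneg _) fun n => ?_)
      have := sq_nonneg ‖(hUn n).toLp (Un n) - hU.toLp U‖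
      have := sq_nonneg ‖(hVn n).toLp (Vn n) - hV.toLp V‖
      linarith

end

/-! ## The measure `muT` -/

instance (ℓ : ℝ) : IsFiniteMeasure (muT ℓ) := by
  unfold muT
  infer_instance

theorem muT_eq (ℓ : ℝ) : muT ℓ = (volume : Measure (ℝ × ℝ)).restrict
    (Ioc 0 ℓ ×ˢ Ioo (-1) 1) := by
  rw [muT, Measure.prod_restrict]
  rfl

theorem ae_muT_mem (ℓ : ℝ) : ∀ᵐ z ∂muT ℓ, z ∈ Ioc (0:ℝ) ℓ ×ˢ Ioo (-1:ℝ) 1 := by
  rw [muT_eq]
  exact ae_restrict_mem (measurableSet_Ioc.prod measurableSet_Ioo)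

/-- a continuous function is bounded almost everywhere -/
theorem exists_ae_bound (ℓ : ℝ) {f : ℝ × ℝ → ℝ} (hf : Continuous f) :
    ∃ K, 0 ≤ K ∧ ∀ᵐ z ∂muT ℓ, |f z| ≤ K := by
  obtain ⟨K, hK⟩ := (isCompact_Icc.prod isCompact_Icc :
    IsCompact (Icc (0:ℝ) ℓ ×ˢ Icc (-1:ℝ) 1)).exists_bound_of_continuousOn hf.continuousOn
  refine ⟨|K|, abs_nonneg _, ?_⟩
  filter_upwards [ae_muT_mem ℓ] with z hz
  exact (hK z ⟨Ioc_subset_Icc_self hz.1, Ioo_subset_Icc_self hz.2⟩).trans (le_abs_self _)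

theorem memLp_of_continuous (ℓ : ℝ) {f : ℝ × ℝ → ℝ} (hf : Continuous f) (q : ℝ≥0∞) :
    MemLp f q (muT ℓ) := by
  obtain ⟨K, -, hK⟩ := exists_ae_bound ℓ hf
  exact MemLp.of_bound hf.aestronglyMeasurable K hK

theorem C1per.cont {ℓ : ℝ} {φ : ℝ × ℝ → ℝ} (h : C1per ℓ φ) : Continuous φ := h.1.continuous

theorem C1per.cont_dS {ℓ : ℝ} {φ : ℝ × ℝ → ℝ} (h : C1per ℓ φ) : Continuous (dS φ) :=
  (h.1.continuous_fderiv one_ne_zero).clm_apply continuous_const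

theorem C1per.cont_dY {ℓ : ℝ} {φ : ℝ × ℝ → ℝ} (h : C1per ℓ φ) : Continuous (dY φ) :=
  (h.1.continuous_fderiv one_ne_zero).clm_apply continuous_const

theorem C1per.diff {ℓ : ℝ} {φ : ℝ × ℝ → ℝ} (h : C1per ℓ φ) (z : ℝ × ℝ) :
    DifferentiableAt ℝ φ z := (h.1.differentiable one_ne_zero) z

theorem C1per.add {ℓ : ℝ} {φ ψ : ℝ × ℝ → ℝ} (h : C1per ℓ φ) (h' : C1per ℓ ψ) :
    C1per ℓ (fun z => φ z + ψ z) :=
  ⟨h.1.add h'.1, fun s y => by simp only [h.2, h'.2]⟩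

theorem C1per.smul {ℓ : ℝ} {φ : ℝ × ℝ → ℝ} (h : C1per ℓ φ) (c : ℝ) :
    C1per ℓ (fun z => c * φ z) :=
  ⟨contDiff_const.mul h.1, fun s y => by simp only [h.2]⟩

theorem C1per.mul {ℓ : ℝ} {φ ψ : ℝ × ℝ → ℝ} (h : C1per ℓ φ) (h' : C1per ℓ ψ) :
    C1per ℓ (fun z => φ z * ψ z) :=
  ⟨h.1.mul h'.1, fun s y => by simp only [h.2, h'.2]⟩

theorem dS_add {φ ψ : ℝ × ℝ → ℝ} {z : ℝ × ℝ} (h : DifferentiableAt ℝ φ z)
    (h' : DifferentiableAt ℝ ψ z) : dS (fun z => φ z + ψ z) z = dS φ z + dS ψ z := by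
  rw [dS, fderiv_fun_add h h']; rfl

theorem dY_add {φ ψ : ℝ × ℝ → ℝ} {z : ℝ × ℝ} (h : DifferentiableAt ℝ φ z)
    (h' : DifferentiableAt ℝ ψ z) : dY (fun z => φ z + ψ z) z = dY φ z + dY ψ z := by
  rw [dY, fderiv_fun_add h h']; rfl

theorem dS_smul {φ : ℝ × ℝ → ℝ} {z : ℝ × ℝ} (h : DifferentiableAt ℝ φ z) (c : ℝ) :
    dS (fun z => c * φ z) z = c * dS φ z := by
  rw [dS, fderiv_const_mul h]; rfl

theorem dY_smul {φ : ℝ × ℝ → ℝ} {z : ℝ × ℝ} (h : DifferentiableAt ℝ φ z) (c : ℝ) :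
    dY (fun z => c * φ z) z = c * dY φ z := by
  rw [dY, fderiv_const_mul h]; rfl

theorem dS_mul {φ ψ : ℝ × ℝ → ℝ} {z : ℝ × ℝ} (h : DifferentiableAt ℝ φ z)
    (h' : DifferentiableAt ℝ ψ z) :
    dS (fun z => φ z * ψ z) z = φ z * dS ψ z + dS φ z * ψ z := by
  rw [dS, fderiv_fun_mul h h']
  simp only [add_apply, smul_apply, smul_eq_mul, dS]
  ring

theorem dY_mul {φ ψ : ℝ × ℝ → ℝ} {z : ℝ × ℝ} (h : DifferentiableAt ℝ φ z)
    (h' : DifferentiableAt ℝ ψ z) :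
    dY (fun z => φ z * ψ z) z = φ z * dY ψ z + dY φ z * ψ z := by
  rw [dY, fderiv_fun_mul h h']
  simp only [add_apply, smul_apply, smul_eq_mul, dY]
  ring

/-! ## `H1T` as a closure -/

/-- the triples of `C1per` functions -/
def Cset (ℓ : ℝ) : Set (Lp ℝ 2 (muT ℓ) × Lp ℝ 2 (muT ℓ) × Lp ℝ 2 (muT ℓ)) :=
  {x | ∃ φ, ∃ h : C1per ℓ φ, x = trip (memLp_of_continuous ℓ (C1per.cont h) 2)
    (memLp_of_continuous ℓ (C1per.cont_dS h) 2) (memLp_of_continuous ℓ (C1per.cont_dY h) 2)}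

theorem h1t_iff {ℓ : ℝ} {U V W : ℝ × ℝ → ℝ} (hU : MemLp U 2 (muT ℓ)) (hV : MemLp V 2 (muT ℓ))
    (hW : MemLp W 2 (muT ℓ)) : H1T ℓ U V W ↔ trip hU hV hW ∈ closure (Cset ℓ) := by
  rw [mem_closure_iff_seq_limit]
  constructor
  · intro h
    obtain ⟨φ, hφ, hlim⟩ := h.approx
    refine ⟨fun n => trip (memLp_of_continuous ℓ (C1per.cont (hφ n)) 2)
      (memLp_of_continuous ℓ (C1per.cont_dS (hφ n)) 2)
      (memLp_of_continuous ℓ (C1per.cont_dY (hφ n)) 2), fun n => ⟨φ n, hφ n, rfl⟩, ?_⟩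
    exact (tendsto_trip_iff hU hV hW _ _ _).2 hlim
  · rintro ⟨x, hx, hlim⟩
    choose φ hφ hxφ using hx
    refine ⟨hU, hV, hW, φ, hφ, ?_⟩
    refine (tendsto_trip_iff hU hV hW (fun n => memLp_of_continuous ℓ (C1per.cont (hφ n)) 2)
      (fun n => memLp_of_continuous ℓ (C1per.cont_dS (hφ n)) 2)
      (fun n => memLp_of_continuous ℓ (C1per.cont_dY (hφ n)) 2)).1 ?_
    have : x = fun n => trip (memLp_of_continuous ℓ (C1per.cont (hφ n)) 2)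
      (memLp_of_continuous ℓ (C1per.cont_dS (hφ n)) 2)
      (memLp_of_continuous ℓ (C1per.cont_dY (hφ n)) 2) := funext hxφ
    rw [← this]
    exact hlim

theorem h1t_of_C1per {ℓ : ℝ} {φ : ℝ × ℝ → ℝ} (h : C1per ℓ φ) : H1T ℓ φ (dS φ) (dY φ) := by
  rw [h1t_iff (memLp_of_continuous ℓ (C1per.cont h) 2)
    (memLp_of_continuous ℓ (C1per.cont_dS h) 2) (memLp_of_continuous ℓ (C1per.cont_dY h) 2)]
  exact subset_closure ⟨φ, h, rfl⟩

theorem h1t_congr {ℓ : ℝ} {U V W U' V' W' : ℝ × ℝ → ℝ} (h : H1T ℓ U V W)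
    (hU : U =ᵐ[muT ℓ] U') (hV : V =ᵐ[muT ℓ] V') (hW : W =ᵐ[muT ℓ] W') : H1T ℓ U' V' W' := by
  have mU := h.mU.ae_eq hU
  have mV := h.mV.ae_eq hV
  have mW := h.mW.ae_eq hW
  rw [h1t_iff mU mV mW]
  have h1 := (h1t_iff h.mU h.mV h.mW).1 h
  have h2 : trip mU mV mW = trip h.mU h.mV h.mW := by
    rw [trip, trip]
    congr 1
    · exact ((MemLp.toLp_eq_toLp_iff _ _).2 hU).symm
    · congr 1
      · exact ((MemLp.toLp_eq_toLp_iff _ _).2 hV).symm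
      · exact ((MemLp.toLp_eq_toLp_iff _ _).2 hW).symm
  rw [h2]
  exact h1

theorem h1t_add {ℓ : ℝ} {U V W U' V' W' : ℝ × ℝ → ℝ} (h : H1T ℓ U V W) (h' : H1T ℓ U' V' W') :
    H1T ℓ (fun z => U z + U' z) (fun z => V z + V' z) (fun z => W z + W' z) := by
  obtain ⟨φ, hφ, hl⟩ := h.approx
  obtain ⟨ψ, hψ, hl'⟩ := h'.approx
  refine ⟨h.mU.add h'.mU, h.mV.add h'.mV, h.mW.add h'.mW, fun n z => φ n z + ψ n z,
    fun n => C1per.add (hφ n) (hψ n), ?_⟩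
  have m1 := fun n => memLp_of_continuous ℓ (C1per.cont (hφ n)) 2
  have m2 := fun n => memLp_of_continuous ℓ (C1per.cont_dS (hφ n)) 2
  have m3 := fun n => memLp_of_continuous ℓ (C1per.cont_dY (hφ n)) 2
  have m1' := fun n => memLp_of_continuous ℓ (C1per.cont (hψ n)) 2
  have m2' := fun n => memLp_of_continuous ℓ (C1per.cont_dS (hψ n)) 2
  have m3' := fun n => memLp_of_continuous ℓ (C1per.cont_dY (hψ n)) 2
  have t1 := (tendsto_trip_iff h.mU h.mV h.mW m1 m2 m3).2 hl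
  have t2 := (tendsto_trip_iff h'.mU h'.mV h'.mW m1' m2' m3').2 hl'
  have t3 := t1.add t2
  have key := (tendsto_trip_iff (h.mU.add h'.mU) (h.mV.add h'.mV) (h.mW.add h'.mW)
    (fun n => (m1 n).add (m1' n)) (fun n => (m2 n).add (m2' n))
    (fun n => (m3 n).add (m3' n))).1 t3
  refine key.congr fun n => integral_congr_ae (Eventually.of_forall fun z => ?_)
  simp only [Pi.add_apply]
  rw [dS_add (C1per.diff (hφ n) z) (C1per.diff (hψ n) z),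
    dY_add (C1per.diff (hφ n) z) (C1per.diff (hψ n) z)]

theorem h1t_smul {ℓ : ℝ} {U V W : ℝ × ℝ → ℝ} (c : ℝ) (h : H1T ℓ U V W) :
    H1T ℓ (fun z => c * U z) (fun z => c * V z) (fun z => c * W z) := by
  obtain ⟨φ, hφ, hl⟩ := h.approx
  refine ⟨h.mU.const_mul c, h.mV.const_mul c, h.mW.const_mul c, fun n z => c * φ n z,
    fun n => C1per.smul (hφ n) c, ?_⟩
  have h1 := hl.const_mul (c ^ 2)
  rw [mul_zero] at h1
  refine h1.congr fun n => ?_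
  rw [← integral_const_mul]
  refine integral_congr_ae (Eventually.of_forall fun z => ?_)
  simp only
  rw [dS_smul (C1per.diff (hφ n) z), dY_smul (C1per.diff (hφ n) z)]
  ring

theorem h1t_closed {ℓ : ℝ} {U V W : ℝ × ℝ → ℝ} {Un Vn Wn : ℕ → ℝ × ℝ → ℝ}
    (mU : MemLp U 2 (muT ℓ)) (mV : MemLp V 2 (muT ℓ)) (mW : MemLp W 2 (muT ℓ))
    (h : ∀ n, H1T ℓ (Un n) (Vn n) (Wn n))
    (hl : Tendsto (fun n => ∫ z, ((Un n z - U z) ^ 2 + (Vn n z - V z) ^ 2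
      + (Wn n z - W z) ^ 2) ∂muT ℓ) atTop (𝓝 0)) : H1T ℓ U V W := by
  rw [h1t_iff mU mV mW]
  refine isClosed_closure.mem_of_tendsto ((tendsto_trip_iff mU mV mW (fun n => (h n).mU)
    (fun n => (h n).mV) (fun n => (h n).mW)).2 hl) (Eventually.of_forall fun n => ?_)
  exact (h1t_iff _ _ _).1 (h n)

/-- B0a -/
theorem h1t_basic : H1TBasic := by
  intro ℓ _
  refine ⟨fun φ h => h1t_of_C1per h, fun U V W U' V' W' h h' => h1t_add h h',
    fun c U V W h => h1t_smul c h, fun U V W U' V' W' h hU hV hW => h1t_congr h hU hV hW,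
    fun U V W Un Vn Wn mU mV mW h hl => h1t_closed mU mV mW h hl, ?_⟩
  intro Un Vn Wn h hc
  have hC : CauchySeq fun n => trip (h n).mU (h n).mV (h n).mW := by
    rw [Metric.cauchySeq_iff]
    intro ε hε
    obtain ⟨N, hN⟩ := hc (ε ^ 2) (by positivity)
    refine ⟨N, fun m hm n hn => ?_⟩
    have h1 := hN m hm n hn
    rw [dist_triple (h m).mU (h m).mV (h m).mW (h n).mU (h n).mV (h n).mW] at h1
    have b1 := sq_nonneg ‖(h m).mU.toLp (Un m) - (h n).mU.toLp (Un n)‖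
    have b2 := sq_nonneg ‖(h m).mV.toLp (Vn m) - (h n).mV.toLp (Vn n)‖
    have b3 := sq_nonneg ‖(h m).mW.toLp (Wn m) - (h n).mW.toLp (Wn n)‖
    rw [trip, trip, Prod.dist_eq, Prod.dist_eq, dist_eq_norm, dist_eq_norm, dist_eq_norm]
    refine max_lt ?_ (max_lt ?_ ?_)
    · exact lt_of_pow_lt_pow_left₀ 2 hε.le (by linarith)
    · exact lt_of_pow_lt_pow_left₀ 2 hε.le (by linarith)
    · exact lt_of_pow_lt_pow_left₀ 2 hε.le (by linarith)
  obtain ⟨⟨u, v, w⟩, hx⟩ := cauchySeq_tendsto_of_complete hC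
  have mu := Lp.memLp u
  have mv := Lp.memLp v
  have mw := Lp.memLp w
  have hx' : Tendsto (fun n => trip (h n).mU (h n).mV (h n).mW) atTop (𝓝 (trip mu mv mw)) := by
    have : trip mu mv mw = (u, v, w) := by
      rw [trip, Lp.toLp_coeFn, Lp.toLp_coeFn, Lp.toLp_coeFn]
    rw [this]
    exact hx
  have hl := (tendsto_trip_iff mu mv mw (fun n => (h n).mU) (fun n => (h n).mV)
    (fun n => (h n).mW)).1 hx'
  exact ⟨u, v, w, h1t_closed mu mv mw h hl, hl⟩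

end Pool.Agent.Lib.MP_e46711_an.H7
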