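import Pool.Agent.Lib.MP_e46711_an.H7.Basic

/-!
# B0b: `H1TTrunc` (positive part, multiplication by `C^1` functions)
-/

open Set Filter Topology MeasureTheory
open scoped ContDiff ENNReal

namespace Pool.Agent.Lib.MP_e46711_an.H7

/-! ## Multiplication by a `C^1` function -/

theorem memLp_mul_bdd {ℓ : ℝ} {f g : ℝ × ℝ → ℝ} (hf : Continuous f) (hg : MemLp g 2 (muT ℓ)) :
    MemLp (fun z => f z * g z) 2 (muT ℓ) := by
  obtain ⟨K, -, hK⟩ := exists_ae_bound ℓ hf
  refine MemLp.of_le_mul (c := K) hg (hf.aestronglyMeasurable.mul hg.1) ?_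
  filter_upwards [hK] with z hz
  rw [norm_mul]
  exact mul_le_mul_of_nonneg_right hz (norm_nonneg _)

theorem h1t_mul {ℓ : ℝ} {U V W : ℝ × ℝ → ℝ} (h : H1T ℓ U V W) {ζ : ℝ × ℝ → ℝ}
    (hζ : C1per ℓ ζ) : H1T ℓ (fun z => ζ z * U z) (fun z => ζ z * V z + dS ζ z * U z)
      (fun z => ζ z * W z + dY ζ z * U z) := by
  obtain ⟨φ, hφ, hl⟩ := h.approx
  have cζ := C1per.cont hζ
  have cS := C1per.cont_dS hζ
  have cY := C1per.cont_dY hζ
  refine ⟨memLp_mul_bdd cζ h.mU, (memLp_mul_bdd cζ h.mV).add (memLp_mul_bdd cS h.mU),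
    (memLp_mul_bdd cζ h.mW).add (memLp_mul_bdd cY h.mU), fun n z => ζ z * φ n z,
    fun n => C1per.mul hζ (hφ n), ?_⟩
  obtain ⟨K1, hK1, b1⟩ := exists_ae_bound ℓ cζ
  obtain ⟨K2, hK2, b2⟩ := exists_ae_bound ℓ cS
  obtain ⟨K3, hK3, b3⟩ := exists_ae_bound ℓ cY
  have h1 := hl.const_mul (5 * (K1 ^ 2 + K2 ^ 2 + K3 ^ 2))
  rw [mul_zero] at h1
  have m1 := fun n => memLp_of_continuous ℓ (C1per.cont (hφ n)) 2
  have m2 := fun n => memLp_of_continuous ℓ (C1per.cont_dS (hφ n)) 2
  have m3 := fun n => memLp_of_continuous ℓ (C1per.cont_dY (hφ n)) 2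
  refine squeeze_zero (fun n => integral_nonneg fun z => by positivity) (fun n => ?_) h1
  rw [← integral_const_mul]
  refine integral_mono_ae ?_ ?_ ?_
  · have a1 := integrable_sq_sub (memLp_mul_bdd cζ (m1 n)) (memLp_mul_bdd cζ h.mU)
    have a2 := integrable_sq_sub ((memLp_mul_bdd cζ (m2 n)).add (memLp_mul_bdd cS (m1 n)))
      ((memLp_mul_bdd cζ h.mV).add (memLp_mul_bdd cS h.mU))
    have a3 := integrable_sq_sub ((memLp_mul_bdd cζ (m3 n)).add (memLp_mul_bdd cY (m1 n)))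
      ((memLp_mul_bdd cζ h.mW).add (memLp_mul_bdd cY h.mU))
    refine ((a1.add a2).add a3).congr (Eventually.of_forall fun z => ?_)
    simp only [Pi.add_apply]
    rw [dS_mul (C1per.diff hζ z) (C1per.diff (hφ n) z),
      dY_mul (C1per.diff hζ z) (C1per.diff (hφ n) z)]
  · exact (((integrable_sq_sub (m1 n) h.mU).add (integrable_sq_sub (m2 n) h.mV)).add
      (integrable_sq_sub (m3 n) h.mW)).const_mul _
  · filter_upwards [b1, b2, b3] with z hz1 hz2 hz3
    rw [dS_mul (C1per.diff hζ z) (C1per.diff (hφ n) z),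
      dY_mul (C1per.diff hζ z) (C1per.diff (hφ n) z)]
    have e1 : ζ z ^ 2 ≤ K1 ^ 2 := sq_le_sq' (by linarith [abs_le.1 hz1]) (abs_le.1 hz1).2
    have e2 : dS ζ z ^ 2 ≤ K2 ^ 2 := sq_le_sq' (by linarith [abs_le.1 hz2]) (abs_le.1 hz2).2
    have e3 : dY ζ z ^ 2 ≤ K3 ^ 2 := sq_le_sq' (by linarith [abs_le.1 hz3]) (abs_le.1 hz3).2
    set A := φ n z - U z with hA
    set B := dS (φ n) z - V z with hB
    set C := dY (φ n) z - W z with hC
    have f1 : ζ z * φ n z - ζ z * U z = ζ z * A := by rw [hA]; ring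
    have f2 : ζ z * dS (φ n) z + dS ζ z * φ n z - (ζ z * V z + dS ζ z * U z) =
        ζ z * B + dS ζ z * A := by rw [hA, hB]; ring
    have f3 : ζ z * dY (φ n) z + dY ζ z * φ n z - (ζ z * W z + dY ζ z * U z) =
        ζ z * C + dY ζ z * A := by rw [hA, hC]; ring
    rw [f1, f2, f3]
    have g1 : (ζ z * A) ^ 2 ≤ K1 ^ 2 * A ^ 2 := by
      rw [mul_pow]; exact mul_le_mul_of_nonneg_right e1 (sq_nonneg _)
    have g2 : (ζ z * B + dS ζ z * A) ^ 2 ≤ 2 * (K1 ^ 2 * B ^ 2) + 2 * (K2 ^ 2 * A ^ 2) := by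
      have i1 : ζ z ^ 2 * B ^ 2 ≤ K1 ^ 2 * B ^ 2 := mul_le_mul_of_nonneg_right e1 (sq_nonneg _)
      have i2 : dS ζ z ^ 2 * A ^ 2 ≤ K2 ^ 2 * A ^ 2 :=
        mul_le_mul_of_nonneg_right e2 (sq_nonneg _)
      nlinarith [sq_nonneg (ζ z * B - dS ζ z * A)]
    have g3 : (ζ z * C + dY ζ z * A) ^ 2 ≤ 2 * (K1 ^ 2 * C ^ 2) + 2 * (K3 ^ 2 * A ^ 2) := by
      have i1 : ζ z ^ 2 * C ^ 2 ≤ K1 ^ 2 * C ^ 2 := mul_le_mul_of_nonneg_right e1 (sq_nonneg _)
      have i2 : dY ζ z ^ 2 * A ^ 2 ≤ K3 ^ 2 * A ^ 2 :=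
        mul_le_mul_of_nonneg_right e3 (sq_nonneg _)
      nlinarith [sq_nonneg (ζ z * C - dY ζ z * A)]
    have p1 : 0 ≤ K1 ^ 2 * A ^ 2 := by positivity
    have p2 : 0 ≤ K2 ^ 2 * A ^ 2 := by positivity
    have p3 : 0 ≤ K3 ^ 2 * A ^ 2 := by positivity
    have p4 : 0 ≤ K1 ^ 2 * B ^ 2 := by positivity
    have p5 : 0 ≤ K2 ^ 2 * B ^ 2 := by positivity
    have p6 : 0 ≤ K3 ^ 2 * B ^ 2 := by positivity
    have p7 : 0 ≤ K1 ^ 2 * C ^ 2 := by positivity
    have p8 : 0 ≤ K2 ^ 2 * C ^ 2 := by positivity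
    have p9 : 0 ≤ K3 ^ 2 * C ^ 2 := by positivity
    have ee : 5 * (K1 ^ 2 + K2 ^ 2 + K3 ^ 2) * (A ^ 2 + B ^ 2 + C ^ 2) =
        5 * (K1 ^ 2 * A ^ 2) + 5 * (K2 ^ 2 * A ^ 2) + 5 * (K3 ^ 2 * A ^ 2) +
        5 * (K1 ^ 2 * B ^ 2) + 5 * (K2 ^ 2 * B ^ 2) + 5 * (K3 ^ 2 * B ^ 2) +
        5 * (K1 ^ 2 * C ^ 2) + 5 * (K2 ^ 2 * C ^ 2) + 5 * (K3 ^ 2 * C ^ 2) := by ring
    rw [ee]
    linarith

/-! ## Composition with a `C^1` function -/

/-- chain rule for `C^1` functions with bounded Lipschitz derivative, `F 0` arbitrary -/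
theorem h1t_comp {ℓ : ℝ} {U V W : ℝ × ℝ → ℝ} (h : H1T ℓ U V W) {F F' : ℝ → ℝ}
    (hF : ∀ t, HasDerivAt F (F' t) t) (hF' : Continuous F') (hb : ∀ t, |F' t| ≤ 1) :
    H1T ℓ (fun z => F (U z)) (fun z => F' (U z) * V z) (fun z => F' (U z) * W z) := by
  have hFc : Continuous F := continuous_iff_continuousAt.2 fun t => (hF t).continuousAt
  have hFlip : ∀ s t, |F s - F t| ≤ |s - t| := by
    intro s t
    have := Convex.norm_image_sub_le_of_norm_hasDerivWithin_le (f := F) (f' := F') (s := univ)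
      (C := 1) (x := t) (y := s) (fun x _ => (hF x).hasDerivWithinAt) (fun x _ => hb x)
      convex_univ (mem_univ _) (mem_univ _)
    simpa using this
  have hFd : ContDiff ℝ 1 F := by
    rw [contDiff_one_iff_deriv]
    refine ⟨fun t => (hF t).differentiableAt, ?_⟩
    have : deriv F = F' := funext fun t => (hF t).deriv
    rw [this]
    exact hF'
  have mU : MemLp (fun z => F (U z)) 2 (muT ℓ) := by
    have h0 : MemLp (fun z => |F 0| + |U z|) 2 (muT ℓ) :=
      (memLp_const |F 0|).add h.mU.norm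
    refine h0.mono (hFc.comp_aestronglyMeasurable h.mU.1) (Eventually.of_forall fun z => ?_)
    have h1 := hFlip (U z) 0
    rw [sub_zero] at h1
    rw [Real.norm_eq_abs, Real.norm_eq_abs]
    refine le_trans ?_ (le_abs_self _)
    calc |F (U z)| = |F 0 + (F (U z) - F 0)| := by ring_nf
      _ ≤ |F 0| + |F (U z) - F 0| := abs_add_le _ _
      _ ≤ |F 0| + |U z| := by linarith
  have mul_mem : ∀ {G : ℝ × ℝ → ℝ}, MemLp G 2 (muT ℓ) →
      MemLp (fun z => F' (U z) * G z) 2 (muT ℓ) := by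
    intro G hG
    refine hG.mono ((hF'.comp_aestronglyMeasurable h.mU.1).mul hG.1)
      (Eventually.of_forall fun z => ?_)
    rw [norm_mul]
    exact mul_le_of_le_one_left (norm_nonneg _) (hb _)
  obtain ⟨φ, hφ, hl⟩ := h.approx
  have m1 := fun n => memLp_of_continuous ℓ (C1per.cont (hφ n)) 2
  have m2 := fun n => memLp_of_continuous ℓ (C1per.cont_dS (hφ n)) 2
  have m3 := fun n => memLp_of_continuous ℓ (C1per.cont_dY (hφ n)) 2
  -- almost everywhere convergence of a subsequence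
  have hT := (tendsto_trip_iff h.mU h.mV h.mW m1 m2 m3).2 hl
  have hT1 : Tendsto (fun n => (m1 n).toLp (φ n)) atTop (𝓝 (h.mU.toLp U)) :=
    (continuous_fst.tendsto _).comp hT
  have hm := tendstoInMeasure_of_tendsto_Lp hT1
  obtain ⟨ns, hns, hae⟩ := hm.exists_seq_tendsto_ae
  have hae' : ∀ᵐ z ∂muT ℓ, Tendsto (fun k => φ (ns k) z) atTop (𝓝 (U z)) := by
    have e1 : ∀ᵐ z ∂muT ℓ, ∀ k, (m1 (ns k)).toLp (φ (ns k)) z = φ (ns k) z :=
      ae_all_iff.2 fun k => (m1 (ns k)).coeFn_toLp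
    filter_upwards [hae, e1, h.mU.coeFn_toLp] with z h1 h2 h3
    rw [h3] at h1
    exact h1.congr h2
  have hl' := hl.comp hns.tendsto_atTop
  -- the approximating functions
  have hψ : ∀ k, C1per ℓ (fun z => F (φ (ns k) z)) := fun k =>
    ⟨hFd.comp (hφ (ns k)).1, fun s y => by simp only [(hφ (ns k)).2]⟩
  have hdS : ∀ k z, dS (fun z => F (φ (ns k) z)) z = F' (φ (ns k) z) * dS (φ (ns k)) z := by
    intro k z
    have h1 := (hF (φ (ns k) z)).comp_hasFDerivAt z (C1per.diff (hφ (ns k)) z).hasFDerivAt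
    rw [dS, show (fun z => F (φ (ns k) z)) = F ∘ φ (ns k) from rfl, h1.fderiv]
    rfl
  have hdY : ∀ k z, dY (fun z => F (φ (ns k) z)) z = F' (φ (ns k) z) * dY (φ (ns k)) z := by
    intro k z
    have h1 := (hF (φ (ns k) z)).comp_hasFDerivAt z (C1per.diff (hφ (ns k)) z).hasFDerivAt
    rw [dY, show (fun z => F (φ (ns k) z)) = F ∘ φ (ns k) from rfl, h1.fderiv]
    rfl
  refine ⟨mU, mul_mem h.mV, mul_mem h.mW, fun k z => F (φ (ns k) z), hψ, ?_⟩
  -- the error with the derivative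
  have herr : ∀ {G : ℝ × ℝ → ℝ}, MemLp G 2 (muT ℓ) → Tendsto (fun k =>
      ∫ z, ((F' (φ (ns k) z) - F' (U z)) * G z) ^ 2 ∂muT ℓ) atTop (𝓝 0) := by
    intro G hG
    have := tendsto_integral_of_dominated_convergence (μ := muT ℓ)
      (F := fun k z => ((F' (φ (ns k) z) - F' (U z)) * G z) ^ 2) (f := fun _ => (0:ℝ))
      (fun z => 4 * G z ^ 2) ?_ ?_ ?_ ?_
    · simpa using this
    · intro k
      exact (((hF'.comp (C1per.cont (hφ (ns k)))).aestronglyMeasurable.sub
        (hF'.comp_aestronglyMeasurable h.mU.1)).mul hG.1).pow 2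
    · exact hG.integrable_sq.const_mul 4
    · intro k
      refine Eventually.of_forall fun z => ?_
      rw [Real.norm_eq_abs, abs_of_nonneg (sq_nonneg _), mul_pow]
      refine mul_le_mul_of_nonneg_right ?_ (sq_nonneg _)
      have h1 := abs_le.1 (hb (φ (ns k) z))
      have h2 := abs_le.1 (hb (U z))
      nlinarith [h1.1, h1.2, h2.1, h2.2]
    · filter_upwards [hae'] with z hz
      have h1 := ((hF'.tendsto _).comp hz).sub_const (F' (U z))
      rw [sub_self] at h1
      have h2 := (h1.mul_const (G z)).pow 2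
      simpa using h2
  have hsum := ((hl'.const_mul 2).add ((herr h.mV).const_mul 2)).add ((herr h.mW).const_mul 2)
  simp only [mul_zero, add_zero] at hsum
  refine squeeze_zero (fun n => integral_nonneg fun z => by positivity) (fun k => ?_) hsum
  have i1 := integrable_sq_sub (m1 (ns k)) h.mU
  have i2 := integrable_sq_sub (m2 (ns k)) h.mV
  have i3 := integrable_sq_sub (m3 (ns k)) h.mW
  have mulk : ∀ {G : ℝ × ℝ → ℝ}, MemLp G 2 (muT ℓ) →
      MemLp (fun z => F' (φ (ns k) z) * G z) 2 (muT ℓ) := by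
    intro G hG
    refine hG.mono ((hF'.comp (C1per.cont (hφ (ns k)))).aestronglyMeasurable.mul hG.1)
      (Eventually.of_forall fun z => ?_)
    rw [norm_mul]
    exact mul_le_of_le_one_left (norm_nonneg _) (hb _)
  have j2 : Integrable (fun z => ((F' (φ (ns k) z) - F' (U z)) * V z) ^ 2) (muT ℓ) := by
    have := integrable_sq_sub (mulk h.mV) (mul_mem h.mV)
    refine this.congr (Eventually.of_forall fun z => ?_)
    simp only
    ring
  have j3 : Integrable (fun z => ((F' (φ (ns k) z) - F' (U z)) * W z) ^ 2) (muT ℓ) := by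
    have := integrable_sq_sub (mulk h.mW) (mul_mem h.mW)
    refine this.congr (Eventually.of_forall fun z => ?_)
    simp only
    ring
  have I1 : Integrable (fun z => 2 * ((φ (ns k) z - U z) ^ 2 + (dS (φ (ns k)) z - V z) ^ 2
      + (dY (φ (ns k)) z - W z) ^ 2)) (muT ℓ) := ((i1.add i2).add i3).const_mul 2
  have I2 : Integrable (fun z => 2 * ((F' (φ (ns k) z) - F' (U z)) * V z) ^ 2) (muT ℓ) :=
    j2.const_mul 2
  have I3 : Integrable (fun z => 2 * ((F' (φ (ns k) z) - F' (U z)) * W z) ^ 2) (muT ℓ) :=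
    j3.const_mul 2
  have I12 : Integrable (fun z => 2 * ((φ (ns k) z - U z) ^ 2 + (dS (φ (ns k)) z - V z) ^ 2
      + (dY (φ (ns k)) z - W z) ^ 2) + 2 * ((F' (φ (ns k) z) - F' (U z)) * V z) ^ 2) (muT ℓ) :=
    I1.add I2
  simp only [Function.comp_apply]
  rw [← integral_const_mul, ← integral_const_mul, ← integral_const_mul,
    ← integral_add I1 I2, ← integral_add I12 I3]
  refine integral_mono ?_ (I12.add I3) fun z => ?_
  · have a1 := integrable_sq_sub (memLp_of_continuous ℓ (C1per.cont (hψ k)) 2) mU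
    have a2 := integrable_sq_sub (memLp_of_continuous ℓ (C1per.cont_dS (hψ k)) 2)
      (mul_mem h.mV)
    have a3 := integrable_sq_sub (memLp_of_continuous ℓ (C1per.cont_dY (hψ k)) 2)
      (mul_mem h.mW)
    exact (a1.add a2).add a3
  · simp only
    rw [hdS, hdY]
    set T := F' (φ (ns k) z)
    set T0 := F' (U z)
    have hT1 : T ^ 2 ≤ 1 := by
      have := abs_le.1 (hb (φ (ns k) z))
      nlinarith [this.1, this.2]
    have q1 : (F (φ (ns k) z) - F (U z)) ^ 2 ≤ (φ (ns k) z - U z) ^ 2 :=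
      sq_le_sq.2 (hFlip _ _)
    have q2 : ∀ A B : ℝ, (T * A - T0 * B) ^ 2 ≤ 2 * (A - B) ^ 2 + 2 * ((T - T0) * B) ^ 2 := by
      intro A B
      have r1 : T * A - T0 * B = T * (A - B) + (T - T0) * B := by ring
      have r2 : T ^ 2 * (A - B) ^ 2 ≤ (A - B) ^ 2 :=
        mul_le_of_le_one_left (sq_nonneg _) hT1
      rw [r1]
      nlinarith [sq_nonneg (T * (A - B) - (T - T0) * B)]
    have q3 := q2 (dS (φ (ns k)) z) (V z)
    have q4 := q2 (dY (φ (ns k)) z) (W z)
    have q5 := sq_nonneg (φ (ns k) z - U z)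
    linarith

/-! ## Positive part -/

/-- the derivative of the approximate positive part -/
noncomputable def Fd (n : ℕ) (t : ℝ) : ℝ := max 0 (min 1 ((n + 1 : ℝ) * t))

/-- approximate positive part -/
noncomputable def Fp (n : ℕ) (t : ℝ) : ℝ := ∫ s in (0:ℝ)..t, Fd n s

theorem continuous_Fd (n : ℕ) : Continuous (Fd n) := by
  unfold Fd
  fun_prop

theorem hasDerivAt_Fp (n : ℕ) (t : ℝ) : HasDerivAt (Fp n) (Fd n t) t :=
  (continuous_Fd n).integral_hasStrictDerivAt 0 t |>.hasDerivAt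

theorem Fd_nonneg (n : ℕ) (t : ℝ) : 0 ≤ Fd n t := le_max_left _ _

theorem Fd_le_one (n : ℕ) (t : ℝ) : Fd n t ≤ 1 := max_le zero_le_one (min_le_left _ _)

theorem Fd_of_nonpos (n : ℕ) {t : ℝ} (ht : t ≤ 0) : Fd n t = 0 := by
  unfold Fd
  refine max_eq_left ((min_le_right _ _).trans ?_)
  exact mul_nonpos_of_nonneg_of_nonpos (by positivity) ht

theorem Fp_of_nonpos (n : ℕ) {t : ℝ} (ht : t ≤ 0) : Fp n t = 0 := by
  unfold Fp
  rw [intervalIntegral.integral_symm, neg_eq_zero]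
  have : ∀ s ∈ Set.uIcc t 0, Fd n s = 0 := by
    intro s hs
    rw [Set.uIcc_of_le ht] at hs
    exact Fd_of_nonpos n hs.2
  rw [intervalIntegral.integral_congr this]
  simp

theorem Fd_of_ge (n : ℕ) {t : ℝ} (ht : 1 / (n + 1 : ℝ) ≤ t) : Fd n t = 1 := by
  have h0 : (0:ℝ) < n + 1 := by positivity
  have h1 : 1 ≤ (n + 1 : ℝ) * t := by
    rw [div_le_iff₀ h0] at ht
    linarith
  unfold Fd
  rw [min_eq_left h1, max_eq_right zero_le_one]

/-- `Fp n` is close to the positive part -/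
theorem Fp_close (n : ℕ) (t : ℝ) : |Fp n t - max t 0| ≤ 1 / (n + 1 : ℝ) := by
  have h0 : (0:ℝ) < n + 1 := by positivity
  have hpos : (0:ℝ) ≤ 1 / (n + 1 : ℝ) := by positivity
  rcases le_or_gt t 0 with ht | ht
  · rw [Fp_of_nonpos n ht, max_eq_right ht]
    simpa using hpos
  · rw [max_eq_left ht.le]
    have hc := continuous_Fd n
    have e1 : t - Fp n t = ∫ s in (0:ℝ)..t, (1 - Fd n s) := by
      rw [intervalIntegral.integral_sub (by simp) (hc.intervalIntegrable _ _)]
      simp [Fp]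
    have hnn : 0 ≤ ∫ s in (0:ℝ)..t, (1 - Fd n s) :=
      intervalIntegral.integral_nonneg ht.le fun s _ => by linarith [Fd_le_one n s]
    have hle : (∫ s in (0:ℝ)..t, (1 - Fd n s)) ≤ 1 / (n + 1 : ℝ) := by
      rcases le_or_gt t (1 / (n + 1 : ℝ)) with h1 | h1
      · calc (∫ s in (0:ℝ)..t, (1 - Fd n s)) ≤ ∫ _s in (0:ℝ)..t, (1:ℝ) := by
              refine intervalIntegral.integral_mono_on ht.le
                ((continuous_const.sub hc).intervalIntegrable _ _) (by simp) fun s _ => ?_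
              linarith [Fd_nonneg n s]
          _ = t := by simp
          _ ≤ _ := h1
      · have s1 : (∫ s in (0:ℝ)..t, (1 - Fd n s)) =
            (∫ s in (0:ℝ)..(1 / (n + 1 : ℝ)), (1 - Fd n s)) +
              ∫ s in (1 / (n + 1 : ℝ))..t, (1 - Fd n s) :=
          (intervalIntegral.integral_add_adjacent_intervals
            ((continuous_const.sub hc).intervalIntegrable _ _)
            ((continuous_const.sub hc).intervalIntegrable _ _)).symm
        have s2 : (∫ s in (1 / (n + 1 : ℝ))..t, (1 - Fd n s)) = 0 := by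
          have : ∀ s ∈ Set.uIcc (1 / (n + 1 : ℝ)) t, 1 - Fd n s = 0 := by
            intro s hs
            rw [Set.uIcc_of_le h1.le] at hs
            rw [Fd_of_ge n hs.1, sub_self]
          rw [intervalIntegral.integral_congr this]
          simp
        rw [s1, s2, add_zero]
        calc (∫ s in (0:ℝ)..(1 / (n + 1 : ℝ)), (1 - Fd n s)) ≤
              ∫ _s in (0:ℝ)..(1 / (n + 1 : ℝ)), (1:ℝ) := by
              refine intervalIntegral.integral_mono_on hpos
                ((continuous_const.sub hc).intervalIntegrable _ _) (by simp) fun s _ => ?_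
              linarith [Fd_nonneg n s]
          _ = _ := by simp
    rw [abs_sub_comm, e1, abs_of_nonneg hnn]
    exact hle

theorem h1t_pos {ℓ : ℝ} {U V W : ℝ × ℝ → ℝ} (h : H1T ℓ U V W) :
    H1T ℓ (fun z => max (U z) 0) (fun z => if 0 < U z then V z else 0)
      (fun z => if 0 < U z then W z else 0) := by
  have aeU : AEMeasurable U (muT ℓ) := h.mU.1.aemeasurable
  have mU : MemLp (fun z => max (U z) 0) 2 (muT ℓ) := by
    refine h.mU.mono ((aeU.max aemeasurable_const).aestronglyMeasurable)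
      (Eventually.of_forall fun z => ?_)
    rw [Real.norm_eq_abs, Real.norm_eq_abs, abs_of_nonneg (le_max_right _ _)]
    exact max_le (le_abs_self _) (abs_nonneg _)
  have mG : ∀ {G : ℝ × ℝ → ℝ}, MemLp G 2 (muT ℓ) →
      MemLp (fun z => if 0 < U z then G z else 0) 2 (muT ℓ) := by
    intro G hG
    -- use an everywhere measurable representative of `U`
    have hs : MeasurableSet {z | 0 < h.mU.1.mk U z} :=
      measurableSet_lt measurable_const h.mU.1.stronglyMeasurable_mk.measurable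
    have h1 : MemLp (Set.indicator {z | 0 < h.mU.1.mk U z} G) 2 (muT ℓ) := hG.indicator hs
    refine h1.ae_eq ?_
    filter_upwards [h.mU.1.ae_eq_mk] with z hz
    by_cases hpos : 0 < U z
    · rw [if_pos hpos, Set.indicator_of_mem]
      rw [Set.mem_ofPred_eq, ← hz]
      exact hpos
    · rw [if_neg hpos, Set.indicator_of_notMem]
      rw [Set.mem_ofPred_eq, ← hz]
      exact hpos
  have hn := fun n : ℕ => h1t_comp h (hasDerivAt_Fp n) (continuous_Fd n)
    (fun t => abs_le.2 ⟨by linarith [Fd_nonneg n t], Fd_le_one n t⟩)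
  refine h1t_closed mU (mG h.mV) (mG h.mW) hn ?_
  have e1 : Tendsto (fun n : ℕ => ∫ z, (Fp n (U z) - max (U z) 0) ^ 2 ∂muT ℓ) atTop (𝓝 0) := by
    have h1 : Tendsto (fun n : ℕ => (1 / (n + 1 : ℝ)) ^ 2 * (muT ℓ).real univ) atTop (𝓝 0) := by
      have := (tendsto_one_div_add_atTop_nhds_zero_nat (𝕜 := ℝ)).pow 2
      have h2 := this.mul_const ((muT ℓ).real univ)
      simpa using h2
    refine squeeze_zero (fun n => integral_nonneg fun z => sq_nonneg _) (fun n => ?_) h1
    have h2 : (1 / (n + 1 : ℝ)) ^ 2 * (muT ℓ).real univ =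
        ∫ _z, (1 / (n + 1 : ℝ)) ^ 2 ∂muT ℓ := by
      rw [integral_const, smul_eq_mul, mul_comm]
    rw [h2]
    refine integral_mono (integrable_sq_sub (hn n).mU mU) (integrable_const _) fun z => ?_
    simp only
    rw [← sq_abs]
    exact pow_le_pow_left₀ (abs_nonneg _) (Fp_close n _) 2
  have e2 : ∀ {G : ℝ × ℝ → ℝ}, MemLp G 2 (muT ℓ) → Tendsto (fun n : ℕ =>
      ∫ z, (Fd n (U z) * G z - (if 0 < U z then G z else 0)) ^ 2 ∂muT ℓ) atTop (𝓝 0) := by
    intro G hG
    have := tendsto_integral_of_dominated_convergence (μ := muT ℓ)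
      (F := fun (n : ℕ) z => (Fd n (U z) * G z - (if 0 < U z then G z else 0)) ^ 2)
      (f := fun _ => (0:ℝ)) (fun z => G z ^ 2) ?_ ?_ ?_ ?_
    · simpa using this
    · intro n
      exact ((((continuous_Fd n).comp_aestronglyMeasurable h.mU.1).mul hG.1).sub
        (mG hG).1).pow 2
    · exact hG.integrable_sq
    · intro n
      refine Eventually.of_forall fun z => ?_
      rw [Real.norm_eq_abs, abs_of_nonneg (sq_nonneg _)]
      have h1 := Fd_nonneg n (U z)
      have h2 := Fd_le_one n (U z)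
      by_cases hpos : 0 < U z
      · rw [if_pos hpos]
        have : Fd n (U z) * G z - G z = (Fd n (U z) - 1) * G z := by ring
        rw [this, mul_pow]
        refine mul_le_of_le_one_left (sq_nonneg _) ?_
        nlinarith
      · rw [if_neg hpos, sub_zero, mul_pow]
        refine mul_le_of_le_one_left (sq_nonneg _) ?_
        nlinarith
    · refine Eventually.of_forall fun z => ?_
      by_cases hpos : 0 < U z
      · have h1 : ∀ᶠ n : ℕ in atTop, 1 / (n + 1 : ℝ) < U z :=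
          (tendsto_one_div_add_atTop_nhds_zero_nat (𝕜 := ℝ)).eventually (gt_mem_nhds hpos)
        refine tendsto_const_nhds.congr' ?_
        filter_upwards [h1] with n hn'
        rw [if_pos hpos, Fd_of_ge n hn'.le]
        ring
      · refine tendsto_const_nhds.congr' ?_
        filter_upwards with n
        rw [if_neg hpos, Fd_of_nonpos n (not_lt.1 hpos)]
        ring
  have hsum := (e1.add (e2 h.mV)).add (e2 h.mW)
  simp only [add_zero] at hsum
  refine hsum.congr fun n => ?_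
  rw [integral_add, integral_add]
  · exact integrable_sq_sub (hn n).mU mU
  · exact integrable_sq_sub (hn n).mV (mG h.mV)
  · exact (integrable_sq_sub (hn n).mU mU).add (integrable_sq_sub (hn n).mV (mG h.mV))
  · exact integrable_sq_sub (hn n).mW (mG h.mW)

/-- B0b -/
theorem h1t_trunc : H1TTrunc := fun _ _ _ _ _ h => ⟨h1t_pos h, fun _ hζ => h1t_mul h hζ⟩

end Pool.Agent.Lib.MP_e46711_an.H7
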